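import Mathlib
import Pool.Agent.N778.AF.Gam
import Pool.Agent.N778.AF.Lio

set_option autoImplicit false

/-!
# `π`, `Γ(1/3)`, `Γ(1/4)` and a family of integrals, scale by scale

For rational `a` in `(0, 1)` and `x ≥ 0` let `J_a(x) = ∫_0^∞ e^(-x t) / (t^a (1 + t)) dt`, so that
`J_a(0) = π / sin(π a)`. Let `N = 6` and `g = Γ(1/3)`, or `N = 4` and `g = Γ(1/4)`. The names are `pi`, `gamma` and
`integral a x` with `a = k / N`, `0 < k < N`, and `x > 0` rational; their values are `π`, `g` and `J_a(x)`. Let `t` and `S`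
be disjoint finite sets of names.

(1) `J_a(0) = π / sin(π a)`.

(2) Let `t` have at least two elements. For every `D` there are `κ` and `c > 0` such that for all `H ≥ 1` and
all nonzero integral polynomials `Q_i(X, Y)` (`i ∈ t`), `P(Y, (X_j))` (`j ∈ S`) of degree at most `D` and with
coefficients at most `H` in absolute value, `|Q_i(v_i, e)| ≥ c / H ^ κ` for some `i`, or
`|P(e, (v_j))| ≥ c / H ^ κ`. So if at the scale `H` the number `π + e` is near a rational number and one more value
(`g` or some `J_a(x)`) is near a number algebraic over `ℚ(e)` then the other values and `e` do not satisfy any relation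
approximately.

(3) Let `t` be nonempty, and let `t` and `S` have only names `integral a x`. For every `D` there are
`κ` and `c > 0` such that for all `H ≥ 1` and all nonzero integral polynomials `F` (in three variables),
`Q_i`, `P` of degree at most `D` and with coefficients at most `H` in absolute value
`|F(e, π, g)| ≥ c / H ^ κ` or `|Q_i(v_i, e)| ≥ c / H ^ κ` for some `i`, or `|P(e, (v_j))| ≥ c / H ^ κ`.

(4) Let one of the numbers `π + e`, `π - e`, `π e`, `π / e` be algebraic or a Liouville number, and let the value of one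
name `i ≠ pi` be algebraic over `ℚ(e)`. Then `e` and the values of the other names (except `pi`) are algebraically
independent over `ℚ`.
-/

namespace Pool.Agent.Results.MP_363d4d_nt.GammaScales

open Set MeasureTheory

/-- `J a x = ∫_0^∞ e^(-x t) / (t^a (1 + t)) dt` -/
noncomputable def J (a x : ℝ) : ℝ := ∫ t in Ioi (0 : ℝ), Real.exp (-(x * t)) / (t ^ a * (1 + t))

/-- the number `z` is algebraic over the field `ℚ(e)` -/
def AlgebraicOverE (z : ℝ) : Prop := IsAlgebraic (IntermediateField.adjoin ℚ {Real.exp 1}) z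

/-- the names of the numbers -/
inductive Name : Type
  /-- `π` -/
  | pi : Name
  /-- `Γ(1/3)` or `Γ(1/4)` -/
  | gamma : Name
  /-- `J_a(x)` -/
  | integral (a x : ℚ) : Name

/-- the numbers -/
noncomputable def value (g : ℝ) : Name → ℝ
  | .pi => Real.pi
  | .gamma => g
  | .integral a x => J a x

/-- the name is considered: `a = k / N`, `0 < k < N`, and `x > 0` for `integral a x` -/
def Valid (N : ℕ) : Name → Prop
  | .pi => True
  | .gamma => True
  | .integral a x => (∃ k : ℕ, 0 < k ∧ k < N ∧ a = k / N) ∧ 0 < x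

/-- the name is of the form `integral a x` -/
def IsIntegral : Name → Prop
  | .integral _ _ => True
  | _ => False

/-- one of the numbers `π + e`, `π - e`, `π e`, `π / e` is algebraic or a Liouville number -/
def AlgebraicOrLiouville : Prop :=
  (IsAlgebraic ℚ (Real.pi + Real.exp 1) ∨ IsAlgebraic ℚ (Real.pi - Real.exp 1) ∨
    IsAlgebraic ℚ (Real.pi * Real.exp 1) ∨ IsAlgebraic ℚ (Real.pi / Real.exp 1)) ∨
  (Liouville (Real.pi + Real.exp 1) ∨ Liouville (Real.pi - Real.exp 1) ∨
    Liouville (Real.pi * Real.exp 1) ∨ Liouville (Real.pi / Real.exp 1))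

/-- the height of the polynomial `P` is at most `H` -/
def HeightLE {σ : Type} (P : MvPolynomial σ ℤ) (H : ℝ) : Prop := ∀ s, |((P.coeff s : ℤ) : ℝ)| ≤ H

/-- For every `D` there are `κ` and `c > 0` such that for all nonzero integral polynomials `Q_i(X, Y)` and `P(Y, (X_j))`
of degree at most `D` and height at most `H`, `H ≥ 1`, one of the numbers `Q_i(v_i, e)`, `P(e, (u_j))` is at least
`c / H ^ κ` in absolute value. -/
def Dichotomy {ι ι' : Type} (v : ι → ℝ) (u : ι' → ℝ) : Prop :=
  ∀ D : ℕ, ∃ κ : ℕ, ∃ c : ℝ, 0 < c ∧ ∀ (Q : ι → MvPolynomial (Fin 2) ℤ) (P : MvPolynomial (Option ι') ℤ),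
    (∀ i, Q i ≠ 0) → P ≠ 0 → (∀ i, (Q i).totalDegree ≤ D) → P.totalDegree ≤ D → ∀ H : ℝ, 1 ≤ H →
    (∀ i, HeightLE (Q i) H) → HeightLE P H →
      (∃ i, c / H ^ κ ≤ |MvPolynomial.aeval ![v i, Real.exp 1] (Q i)|) ∨
        c / H ^ κ ≤ |MvPolynomial.aeval (fun o : Option ι' => o.elim (Real.exp 1) u) P|

/-- The same with a third possibility: `|F(e, (y_l))| ≥ c / H ^ κ`. -/
def Trichotomy {ι₀ ι ι' : Type} (y : ι₀ → ℝ) (v : ι → ℝ) (u : ι' → ℝ) : Prop :=
  ∀ D : ℕ, ∃ κ : ℕ, ∃ c : ℝ, 0 < c ∧ ∀ (F : MvPolynomial (Option ι₀) ℤ) (Q : ι → MvPolynomial (Fin 2) ℤ)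
    (P : MvPolynomial (Option ι') ℤ), F ≠ 0 → (∀ i, Q i ≠ 0) → P ≠ 0 → F.totalDegree ≤ D →
    (∀ i, (Q i).totalDegree ≤ D) → P.totalDegree ≤ D → ∀ H : ℝ, 1 ≤ H → HeightLE F H →
    (∀ i, HeightLE (Q i) H) → HeightLE P H →
      c / H ^ κ ≤ |MvPolynomial.aeval (fun o : Option ι₀ => o.elim (Real.exp 1) y) F| ∨
      (∃ i, c / H ^ κ ≤ |MvPolynomial.aeval ![v i, Real.exp 1] (Q i)|) ∨
        c / H ^ κ ≤ |MvPolynomial.aeval (fun o : Option ι' => o.elim (Real.exp 1) u) P|

open Pool.Agent.N778.AF (Dx Dy UN J_gen1 J_gen2)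
open Pool.Agent.R352.E (clF mem_clF subset_clF)
open Pool.Agent.N13.PE (GH GH_of six_mem four_mem fracs)

theorem GH_all {N : ℕ} {g : ℝ} (h : N = 4 ∧ g = Real.Gamma (1 / 4) ∨ N = 6 ∧ g = Real.Gamma (1 / 3)) :
    GH ![Real.pi, g] (fracs N) := by
  have hpi : Real.pi ∈ clF ({Real.exp 1} ∪ range ![Real.pi, g]) := subset_clF _ (Or.inr ⟨0, rfl⟩)
  have hg : g ∈ clF ({Real.exp 1} ∪ range ![Real.pi, g]) := subset_clF _ (Or.inr ⟨1, rfl⟩)
  rcases h with ⟨rfl, rfl⟩ | ⟨rfl, rfl⟩
  · exact GH_of (four_mem hpi hg)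
  · exact GH_of (six_mem hpi hg)

/-- the translation of the names -/
def enc : Name → Fin 2 ⊕ (ℚ × ℚ)
  | .pi => Sum.inl 0
  | .gamma => Sum.inl 1
  | .integral a x => Sum.inr (a, x)

theorem enc_injective : Function.Injective enc := by
  intro i j h
  cases i <;> cases j <;> simp_all [enc]

theorem enc_value (g : ℝ) (i : Name) :
    Sum.elim ![Real.pi, g] (fun p : ℚ × ℚ => Pool.Agent.N13.PE.J p.1 p.2) (enc i) = value g i := by
  cases i <;> rfl

theorem first {N : ℕ} {g : ℝ} (h : N = 4 ∧ g = Real.Gamma (1 / 4) ∨ N = 6 ∧ g = Real.Gamma (1 / 3))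
    {t S : Finset Name} (hd : Disjoint t S) (hv : ∀ i, i ∈ t ∨ i ∈ S → Valid N i) (hcard : 2 ≤ t.card) :
    Dx (fun i : t => value g i) (fun j : S => value g j) := by
  classical
  have key := J_gen1 (GH_all h) (t.map ⟨enc, enc_injective⟩) (S.map ⟨enc, enc_injective⟩) ?_
    (by rw [Finset.card_map]; exact hcard) ((Finset.disjoint_map _).2 hd)
  · refine key.mono (fun i => (⟨(Finset.mem_map.1 i.2).choose, (Finset.mem_map.1 i.2).choose_spec.1⟩ : t)) (fun i => ?_)
      (fun j : S => (⟨enc j.1, Finset.mem_map_of_mem _ j.2⟩ : S.map ⟨enc, enc_injective⟩)) ?_ (fun j => enc_value g _)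
    · have h1 : enc (Finset.mem_map.1 i.2).choose = i.1 := (Finset.mem_map.1 i.2).choose_spec.2
      have h2 := enc_value g (Finset.mem_map.1 i.2).choose
      rw [h1] at h2
      exact h2.symm
    · intro a b hab
      exact Subtype.ext (enc_injective (congrArg Subtype.val hab))
  · rintro p (hp | hp)
    · obtain ⟨j, hj, hjp⟩ := Finset.mem_map.1 hp
      have h1 : j = .integral p.1 p.2 := enc_injective hjp
      rw [h1] at hj
      exact hv _ (Or.inl hj)
    · obtain ⟨j, hj, hjp⟩ := Finset.mem_map.1 hp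
      have h1 : j = .integral p.1 p.2 := enc_injective hjp
      rw [h1] at hj
      exact hv _ (Or.inr hj)

/-- the translation of the names of the integrals -/
def enc2 : Name → ℚ × ℚ
  | .pi => (0, 0)
  | .gamma => (0, 0)
  | .integral a x => (a, x)

theorem enc2_inj {i j : Name} (hi : IsIntegral i) (hj : IsIntegral j) (h : enc2 i = enc2 j) : i = j := by
  cases i <;> cases j <;> simp_all [enc2, IsIntegral]

theorem enc2_value (g : ℝ) {i : Name} (hi : IsIntegral i) :
    Pool.Agent.N13.PE.J (enc2 i).1 (enc2 i).2 = value g i := by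
  cases i with
  | pi => exact absurd hi id
  | gamma => exact absurd hi id
  | integral a x => rfl

theorem enc2_valid {N : ℕ} {i : Name} (hi : IsIntegral i) (hv : Valid N i) : (enc2 i).1 ∈ fracs N ∧ 0 < (enc2 i).2 := by
  cases i with
  | pi => exact absurd hi id
  | gamma => exact absurd hi id
  | integral a x => exact hv

theorem second {N : ℕ} {g : ℝ} (h : N = 4 ∧ g = Real.Gamma (1 / 4) ∨ N = 6 ∧ g = Real.Gamma (1 / 3))
    {t S : Finset Name} (hd : Disjoint t S) (hv : ∀ i, i ∈ t ∨ i ∈ S → Valid N i ∧ IsIntegral i) (hcard : 1 ≤ t.card) :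
    Dy ![Real.pi, g] (fun i : t => value g i) (fun j : S => value g j) := by
  classical
  have hinj : ∀ i j, (i ∈ t ∨ i ∈ S) → (j ∈ t ∨ j ∈ S) → enc2 i = enc2 j → i = j := fun i j hi hj hij =>
    enc2_inj (hv i hi).2 (hv j hj).2 hij
  have key := J_gen2 (GH_all h) (t.image enc2) (S.image enc2) ?_ ?_ ?_
  · refine key.mono id Function.injective_id (fun _ => rfl)
      (fun i => (⟨(Finset.mem_image.1 i.2).choose, (Finset.mem_image.1 i.2).choose_spec.1⟩ : t)) (fun i => ?_)
      (fun j : S => (⟨enc2 j.1, Finset.mem_image_of_mem _ j.2⟩ : S.image enc2)) ?_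
      (fun j => enc2_value g (hv _ (Or.inr j.2)).2)
    · have h1 : enc2 (Finset.mem_image.1 i.2).choose = i.1 := (Finset.mem_image.1 i.2).choose_spec.2
      have h2 := enc2_value g (hv _ (Or.inl (Finset.mem_image.1 i.2).choose_spec.1)).2
      rw [h1] at h2
      exact h2.symm
    · intro a b hab
      exact Subtype.ext (hinj _ _ (Or.inr a.2) (Or.inr b.2) (congrArg Subtype.val hab))
  · rintro p (hp | hp)
    · obtain ⟨j, hj, rfl⟩ := Finset.mem_image.1 hp
      exact enc2_valid (hv j (Or.inl hj)).2 (hv j (Or.inl hj)).1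
    · obtain ⟨j, hj, rfl⟩ := Finset.mem_image.1 hp
      exact enc2_valid (hv j (Or.inr hj)).2 (hv j (Or.inr hj)).1
  · rw [Finset.card_image_of_injOn (fun i hi j hj hij => hinj i j (Or.inl hi) (Or.inl hj) hij)]
    omega
  · rw [Finset.disjoint_left]
    intro p hp hp'
    obtain ⟨i, hi, rfl⟩ := Finset.mem_image.1 hp
    obtain ⟨j, hj, hij⟩ := Finset.mem_image.1 hp'
    have h1 := hinj j i (Or.inr hj) (Or.inl hi) hij
    exact Finset.disjoint_left.1 hd hi (h1 ▸ hj)

theorem result :
    -- (1)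
    (∀ a : ℝ, 0 < a → a < 1 → J a 0 = Real.pi / Real.sin (Real.pi * a)) ∧
    ∀ (N : ℕ) (g : ℝ), (N = 4 ∧ g = Real.Gamma (1 / 4) ∨ N = 6 ∧ g = Real.Gamma (1 / 3)) →
      -- (2)
      (∀ t S : Finset Name, Disjoint t S → (∀ i, i ∈ t ∨ i ∈ S → Valid N i) → 2 ≤ t.card →
        Dichotomy (fun i : t => value g i) (fun j : S => value g j)) ∧
      -- (3)
      (∀ t S : Finset Name, Disjoint t S → (∀ i, i ∈ t ∨ i ∈ S → Valid N i ∧ IsIntegral i) → 1 ≤ t.card →
        Trichotomy ![Real.pi, g] (fun i : t => value g i) (fun j : S => value g j)) ∧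
      -- (4)
      (AlgebraicOrLiouville → ∀ (i : Name) (S : Finset Name), i ≠ .pi → AlgebraicOverE (value g i) → .pi ∉ S → i ∉ S →
        (∀ j, j = i ∨ j ∈ S → Valid N j) →
          AlgebraicIndependent ℚ (fun o : Option S => o.elim (Real.exp 1) (fun j => value g j))) := by
  refine ⟨fun a h0 h1 => Pool.Agent.N13.PE.J_zero h0 h1, fun N g h =>
    ⟨fun t S hd hv hcard => first h hd hv hcard, fun t S hd hv hcard => second h hd hv hcard,
      fun hAL i S hi hia hpi hiS hv => ?_⟩⟩
  classical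
  have key := first h (t := {.pi, i}) (S := S) (by
    rw [Finset.disjoint_left]
    intro j hj hjS
    rcases Finset.mem_insert.1 hj with rfl | hj
    · exact hpi hjS
    · rw [Finset.mem_singleton.1 hj] at hjS
      exact hiS hjS) (by
    rintro j (hj | hj)
    · rcases Finset.mem_insert.1 hj with rfl | hj
      · exact trivial
      · exact hv j (Or.inl (Finset.mem_singleton.1 hj))
    · exact hv j (Or.inr hj)) (by rw [Finset.card_pair hi.symm])
  have key2 : Dx (fun b : Bool => if b then Real.pi else value g i) (fun j : S => value g j) := by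
    refine key.mono (fun j => decide (j.1 = .pi)) (fun j => ?_) id Function.injective_id (fun _ => rfl)
    obtain ⟨j, hj⟩ := j
    by_cases hjp : j = .pi
    · subst hjp
      simp [value]
    · have h1 : j = i := Finset.mem_singleton.1 ((Finset.mem_insert.1 hj).resolve_left hjp)
      subst h1
      simp [hjp]
  refine key2.indep2 ?_ (mem_clF.2 hia)
  rcases hAL with h1 | h1
  · exact Pool.Agent.N778.AF.UN_of_alg (Pool.Agent.N778.AF.mem_of_four h1)
  · exact Pool.Agent.N778.AF.UN_of_four h1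

end Pool.Agent.Results.MP_363d4d_nt.GammaScales
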