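import Pool.Agent.N695.NF.Count
import Pool.Agent.TH456.TM.E

set_option autoImplicit false

/-!
# Near algebraic values at `(e, π)`: one curve at every scale

Let `t` be a real number (for instance `t = π`). For a scale `H ≥ 1` and a bound `D` for the degrees we
consider all integer polynomials `f (x, y)` and `P (z)` of degree `≤ D` (in each variable) and with
coefficients `≤ H`, such that `P (f (e, t))` is very small, `|P (f (e, t))| ≤ c H ^ (-κ)`.

(1) At every scale there is one irreducible polynomial `Q (x, y)` which divides all these polynomials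
`P (f (x, y))`: all the `f` with a near algebraic value are constant on one and the same curve.

(2) At every scale at most one (up to the sign) of the infinitely many primitive forms `a t + b e`,
`|a|, |b| ≤ H`, admits a polynomial `P` with a very small value `P (a t + b e)`, and all these
polynomials have a common factor. For all the primitive forms together there are at most
`log log X / log ρ + C` irreducible `P` of degree `≤ D` with `|P (a t + b e)| ≤ h ^ (-w)`, `h ≤ X`,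
where `h` is the maximum of `|a|`, `|b|` and of the coefficients of `P`, for all `ρ < w / κ`.

(3) At every scale at most one of the primitive forms `a t + b e` is very near to an algebraic number
of degree `≤ D` and height `≤ H`.

(4) In particular `π + e` and `π - e` are not both near algebraic numbers at the same scale.

(5) If one primitive form `a₀ π + b₀ e` (for instance `π + e` or `π - e`) is algebraic, then all the
other ones have a transcendence measure of polynomial type in every degree, uniformly in `a`, `b`.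

The constants `κ` depend on `D` only and `c` on `D` and a bound for `|t|`. The proof uses the
transcendence measure of `e` and the elimination theorem `Pool.Agent.TH456.TM.core`, a bound for the
coefficients of the factors of `P (f (x, y))`, and the irreducibility of `P (a y + b x)`.
-/

namespace Pool.Agent.Results.MP_363d4d_nt.NearAlgebraicForms

open Polynomial
open scoped Polynomial.Bivariate

/-- `P` has degree at most `D` and coefficients of absolute value at most `H` -/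
def Bounded (D : ℕ) (H : ℝ) (P : ℤ[X]) : Prop := P.natDegree ≤ D ∧ ∀ i, |(P.coeff i : ℝ)| ≤ H

/-- `f (x, y)` has degree at most `D` in each variable and coefficients of absolute value at most
`H`; it is given as a polynomial in `y` whose coefficients are polynomials in `x` -/
def Bounded₂ (D : ℕ) (H : ℝ) (f : ℤ[X][Y]) : Prop := f.natDegree ≤ D ∧ ∀ j, Bounded D H (f.coeff j)

/-- `f (e, t)` -/
noncomputable def value (t : ℝ) (f : ℤ[X][Y]) : ℝ := aevalAeval (Real.exp 1) t f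

/-- `(a, b)` is a primitive vector with `|a|, |b| ≤ H` -/
def Primitive (H : ℝ) (a b : ℤ) : Prop := IsCoprime a b ∧ |(a : ℝ)| ≤ H ∧ |(b : ℝ)| ≤ H

/-- the real number `α` is a root of a nonzero integer polynomial of degree at most `D` with
coefficients of absolute value at most `H` -/
def Algebraic (D : ℕ) (H α : ℝ) : Prop := ∃ P : ℤ[X], P ≠ 0 ∧ Bounded D H P ∧ aeval α P = 0

/-- `P` and `P'` have a common irreducible factor of positive degree -/
def CommonFactor (P P' : ℤ[X]) : Prop :=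
  ∃ R : ℤ[X], Irreducible R ∧ 1 ≤ R.natDegree ∧ R ∣ P ∧ R ∣ P'

/-- the maximum of `|a|`, `|b|` and of the absolute values of the coefficients of `P` -/
noncomputable def height (a b : ℤ) (P : ℤ[X]) : ℕ :=
  max (max a.natAbs b.natAbs) (P.support.sup fun i => (P.coeff i).natAbs)

/-- The triples `(a, b, P)` of height at most `X` with coprime `a`, `b`, normalised by `a > 0` or
`(a, b) = (0, 1)`, and with an irreducible polynomial `P` with positive leading coefficient and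
degree between `1` and `D` such that `|P (a t + b e)| ≤ h ^ (-w)`, where `h` is the height of
`(a, b, P)`. -/
def Near (t : ℝ) (D : ℕ) (w X : ℝ) : Set ((ℤ × ℤ) × ℤ[X]) :=
  {p | IsCoprime p.1.1 p.1.2 ∧ (0 < p.1.1 ∨ p.1.1 = 0 ∧ 0 < p.1.2) ∧ Irreducible p.2 ∧
    1 ≤ p.2.natDegree ∧ p.2.natDegree ≤ D ∧ 0 < p.2.leadingCoeff ∧
    |aeval (p.1.1 * t + p.1.2 * Real.exp 1) p.2| ≤ (height p.1.1 p.1.2 p.2 : ℝ) ^ (-w) ∧
    (height p.1.1 p.1.2 p.2 : ℝ) ≤ X}

open Pool.Agent.N695.NF Pool.Agent.TH456.TM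

theorem norm_aeval (u : ℝ) (P : ℤ[X]) : ‖aeval (u : ℂ) P‖ = |aeval u P| := by
  have h : aeval (u : ℂ) P = ((aeval u P : ℝ) : ℂ) := Polynomial.aeval_algebraMap_apply ℂ u P
  rw [h, Complex.norm_real, Real.norm_eq_abs]

theorem value_eq (t : ℝ) (f : ℤ[X][Y]) : evR (Real.exp 1 : ℝ) (t : ℝ) f = ((value t f : ℝ) : ℂ) := by
  rw [evR_apply, vl_eq]
  unfold value
  have h : ((aevalAeval ((Real.exp 1 : ℝ) : ℂ) (t : ℂ) : ℤ[X][Y] →ₐ[ℤ] ℂ) : ℤ[X][Y] →+* ℂ) =
      Complex.ofRealHom.comp (aevalAeval (Real.exp 1) t : ℤ[X][Y] →ₐ[ℤ] ℝ).toRingHom := by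
    refine Polynomial.ringHom_ext' (Polynomial.ringHom_ext' (RingHom.ext_int _ _) ?_) ?_
    · simp
    · simp
  exact RingHom.congr_fun h f

theorem hh_eq (a b : ℤ) (P : ℤ[X]) : hh ((a, b), P) = (height a b P : ℝ) := by
  unfold hh height
  rw [Nat.cast_max, Nat.cast_max, Nat.cast_natAbs, Nat.cast_natAbs, Int.cast_abs, Int.cast_abs]
  rfl

/-- the value of a polynomial near a root -/
theorem near_root (D : ℕ) (H M : ℝ) (hM : 1 ≤ M) (P : ℤ[X]) (hP : Bounded D H P) (u α : ℝ)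
    (hu : |u| ≤ M) (hα : |α| ≤ M) (h0 : aeval α P = 0) :
    |aeval u P| ≤ |u - α| * ((D + 1) * D * H * M ^ D) := by
  have hH : 0 ≤ H := (abs_nonneg _).trans (hP.2 0)
  have e : ∀ v : ℝ, aeval v P = ∑ k ∈ Finset.range (D + 1), (P.coeff k : ℝ) * v ^ k := by
    intro v
    rw [aeval_eq_sum_range' (show P.natDegree < D + 1 by have := hP.1; omega)]
    refine Finset.sum_congr rfl fun k _ => ?_
    rw [zsmul_eq_mul]
  have h1 : aeval u P = ∑ k ∈ Finset.range (D + 1), (P.coeff k : ℝ) * (u ^ k - α ^ k) := by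
    have h2 : aeval u P = aeval u P - aeval α P := by rw [h0, sub_zero]
    rw [h2, e, e, ← Finset.sum_sub_distrib]
    exact Finset.sum_congr rfl fun k _ => by ring
  rw [h1]
  refine (Finset.abs_sum_le_sum_abs _ _).trans ?_
  have h3 : ∀ k ∈ Finset.range (D + 1), |(P.coeff k : ℝ) * (u ^ k - α ^ k)| ≤
      H * (|u - α| * D * M ^ D) := by
    intro k hk
    rw [Finset.mem_range] at hk
    rw [abs_mul]
    refine mul_le_mul (hP.2 k) ?_ (abs_nonneg _) hH
    refine (abs_pow_sub_pow_le u α k).trans ?_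
    have h4 : (k : ℝ) ≤ D := by exact_mod_cast (by omega : k ≤ D)
    have h5 : max |u| |α| ^ (k - 1) ≤ M ^ D :=
      (pow_le_pow_left₀ (le_max_of_le_left (abs_nonneg _)) (max_le hu hα) _).trans
        (pow_le_pow_right₀ hM (by omega))
    have h6 : 0 ≤ |u - α| := abs_nonneg _
    have h7 : 0 ≤ max |u| |α| ^ (k - 1) := pow_nonneg (le_max_of_le_left (abs_nonneg _)) _
    gcongr
  refine (Finset.sum_le_sum h3).trans ?_
  rw [Finset.sum_const, Finset.card_range, nsmul_eq_mul]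
  push_cast
  apply le_of_eq
  ring

theorem coe_form (t : ℝ) (a b : ℤ) : (a : ℂ) * (t : ℂ) + b * ((Real.exp 1 : ℝ) : ℂ) =
    ((a * t + b * Real.exp 1 : ℝ) : ℂ) := by
  push_cast
  rfl

/-- the statement (2) -/
theorem forms (D : ℕ) : ∃ κ : ℝ, 0 < κ ∧ ∀ T : ℝ, ∃ c : ℝ, 0 < c ∧ ∀ t : ℝ, |t| ≤ T → ∀ H : ℝ,
    ∀ (a b a' b' : ℤ) (P P' : ℤ[X]), Primitive H a b → Primitive H a' b' → P ≠ 0 → P' ≠ 0 →
      Bounded D H P → Bounded D H P' →
      |aeval (a * t + b * Real.exp 1) P| ≤ c * H ^ (-κ) →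
      |aeval (a' * t + b' * Real.exp 1) P'| ≤ c * H ^ (-κ) →
      (a' = a ∧ b' = b ∧ CommonFactor P P') ∨ (a' = -a ∧ b' = -b ∧ CommonFactor (P.comp (-X)) P') := by
  obtain ⟨κ, hκ, h⟩ := two_forms _ measT_e D
  refine ⟨κ, hκ, fun T => ?_⟩
  obtain ⟨c, hc, h⟩ := h T
  refine ⟨c, hc, fun t ht H a b a' b' P P' hab hab' hP hP' hPb hPb' hs hs' => ?_⟩
  have h1 := h t (by rw [Complex.norm_real]; exact ht) H a b a' b' P P' hab.1 hab'.1 hab.2.1
    hab.2.2 hab'.2.1 hab'.2.2 hP hP' hPb hPb' (by rw [coe_form, norm_aeval]; exact hs)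
    (by rw [coe_form, norm_aeval]; exact hs')
  rcases h1 with ⟨e1, e2, R, r1, r2, r3, r4⟩ | ⟨e1, e2, R, r1, r2, r3, r4⟩
  · exact Or.inl ⟨e1, e2, R, r1, r2, r3, r4⟩
  · right
    refine ⟨e1, e2, R.comp (-X), ?_, ?_, ?_, r4⟩
    · have h2 : Irreducible (algEquivAevalNegX R) :=
        (MulEquiv.irreducible_iff (algEquivAevalNegX (R := ℤ))).2 r1
      rwa [algEquivAevalNegX_apply, ← comp_eq_aeval] at h2
    · rw [natDegree_comp]
      simpa using r2
    · obtain ⟨S, hS⟩ := r3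
      exact ⟨S.comp (-X), by rw [hS, mul_comp]⟩

/-- the statement (3) -/
theorem numbers (D : ℕ) : ∃ κ : ℝ, 0 < κ ∧ ∀ T : ℝ, ∃ c : ℝ, 0 < c ∧ ∀ t : ℝ, |t| ≤ T → ∀ H : ℝ,
    1 ≤ H → ∀ (a b a' b' : ℤ) (α α' : ℝ), Primitive H a b → Primitive H a' b' →
      Algebraic D H α → Algebraic D H α' →
      |a * t + b * Real.exp 1 - α| ≤ c * H ^ (-κ) → |a' * t + b' * Real.exp 1 - α'| ≤ c * H ^ (-κ) →
      (a' = a ∧ b' = b) ∨ (a' = -a ∧ b' = -b) := by
  obtain ⟨κ, hκ, h⟩ := forms D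
  refine ⟨κ + (D + 1), by positivity, fun T => ?_⟩
  obtain ⟨c, hc, h⟩ := h T
  obtain ⟨A, hA⟩ : ∃ A : ℝ, A = |T| + 4 := ⟨_, rfl⟩
  have hA4 : 4 ≤ A := by rw [hA]; linarith [abs_nonneg T]
  obtain ⟨K, hK⟩ : ∃ K : ℝ, K = (D + 1) * D * A ^ D + 1 := ⟨_, rfl⟩
  have hK1 : 1 ≤ K := by
    rw [hK]
    have : 0 ≤ ((D : ℝ) + 1) * D * A ^ D := by positivity
    linarith
  refine ⟨min 1 (c / K), lt_min one_pos (by positivity), ?_⟩
  intro t ht H hH a b a' b' α α' hab hab' hα hα' hs hs'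
  have hH0 : 0 < H := by linarith
  have hexp : Real.exp 1 < 3 := by
    have := Real.exp_one_lt_d9
    linarith
  have key : ∀ (a b : ℤ) (α : ℝ), Primitive H a b → Algebraic D H α →
      |a * t + b * Real.exp 1 - α| ≤ min 1 (c / K) * H ^ (-(κ + (D + 1))) →
      ∃ P : ℤ[X], P ≠ 0 ∧ Bounded D H P ∧
        |aeval (a * t + b * Real.exp 1) P| ≤ c * H ^ (-κ) := by
    rintro a b α ⟨-, ha, hb⟩ ⟨P, hP, hPb, hP0⟩ hs
    refine ⟨P, hP, hPb, ?_⟩
    have hpow1 : H ^ (-(κ + ((D : ℝ) + 1))) ≤ 1 := Real.rpow_le_one_of_one_le_of_nonpos hH (by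
      have : (0 : ℝ) ≤ D := Nat.cast_nonneg _
      linarith)
    have hpow0 : 0 < H ^ (-(κ + ((D : ℝ) + 1))) := by positivity
    have hT : |t| ≤ |T| := ht.trans (le_abs_self T)
    have hu : |a * t + b * Real.exp 1| ≤ (|T| + 3) * H := by
      refine (abs_add_le _ _).trans ?_
      rw [abs_mul, abs_mul, abs_of_pos (Real.exp_pos 1)]
      have g1 : |(a : ℝ)| * |t| ≤ H * |T| := mul_le_mul ha hT (abs_nonneg _) hH0.le
      have g2 : |(b : ℝ)| * Real.exp 1 ≤ H * 3 := mul_le_mul hb hexp.le (Real.exp_pos 1).le hH0.le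
      linarith
    have hs1 : |a * t + b * Real.exp 1 - α| ≤ 1 := by
      refine hs.trans ?_
      have := min_le_left 1 (c / K)
      calc min 1 (c / K) * H ^ (-(κ + ((D : ℝ) + 1))) ≤ 1 * 1 :=
            mul_le_mul this hpow1 hpow0.le (by norm_num)
        _ = 1 := by norm_num
    have huM : |a * t + b * Real.exp 1| ≤ A * H := by
      rw [hA]
      nlinarith
    have hαM : |α| ≤ A * H := by
      have g1 : |α| ≤ |a * t + b * Real.exp 1| + |a * t + b * Real.exp 1 - α| := by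
        have := abs_sub_abs_le_abs_sub α (a * t + b * Real.exp 1)
        rw [abs_sub_comm] at this
        linarith
      rw [hA]
      nlinarith
    have hM1 : 1 ≤ A * H := by nlinarith
    have h1 := near_root D H (A * H) hM1 P hPb (a * t + b * Real.exp 1) α huM hαM hP0
    refine h1.trans ?_
    have h2 : ((D : ℝ) + 1) * D * H * (A * H) ^ D ≤ K * H ^ (D + 1) := by
      rw [hK, mul_pow, pow_succ H D]
      have g1 : 0 ≤ H ^ D * H := by positivity
      nlinarith
    calc |a * t + b * Real.exp 1 - α| * (((D : ℝ) + 1) * D * H * (A * H) ^ D)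
        ≤ (c / K * H ^ (-(κ + ((D : ℝ) + 1)))) * (K * H ^ (D + 1)) := by
          refine mul_le_mul (hs.trans ?_) h2 (by positivity) (by positivity)
          exact mul_le_mul_of_nonneg_right (min_le_right _ _) hpow0.le
      _ = c * (H ^ (-(κ + ((D : ℝ) + 1))) * H ^ (D + 1)) * (K / K) := by ring
      _ = c * H ^ (-κ) := by
          rw [div_self (by linarith), mul_one, ← Real.rpow_natCast H (D + 1), ← Real.rpow_add hH0]
          congr 2
          push_cast
          ring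
  obtain ⟨P, hP, hPb, hPs⟩ := key a b α hab hα hs
  obtain ⟨P', hP', hPb', hPs'⟩ := key a' b' α' hab' hα' hs'
  rcases h t ht H a b a' b' P P' hab hab' hP hP' hPb hPb' hPs hPs' with ⟨e1, e2, -⟩ | ⟨e1, e2, -⟩
  · exact Or.inl ⟨e1, e2⟩
  · exact Or.inr ⟨e1, e2⟩

/-- the statement (5) -/
theorem other (a₀ b₀ : ℤ) (h₀ : IsCoprime a₀ b₀)
    (halg : IsAlgebraic ℚ (a₀ * Real.pi + b₀ * Real.exp 1)) (D : ℕ) :
    ∃ κ c : ℝ, 0 < κ ∧ 0 < c ∧ ∀ (H : ℝ) (a b : ℤ) (P : ℤ[X]), Primitive H a b → P ≠ 0 →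
      Bounded D H P → ¬ (a = a₀ ∧ b = b₀) → ¬ (a = -a₀ ∧ b = -b₀) →
      c * H ^ (-κ) < |aeval (a * Real.pi + b * Real.exp 1) P| := by
  obtain ⟨P₀, hP₀, h0⟩ := (IsFractionRing.isAlgebraic_iff ℤ ℚ ℝ).2 halg
  obtain ⟨κ, hκ, h⟩ := forms (max D P₀.natDegree)
  obtain ⟨c, hc, h⟩ := h Real.pi
  obtain ⟨B, hB⟩ : ∃ B : ℝ, B = max 1 (max (max |(a₀ : ℝ)| |(b₀ : ℝ)|) (ht P₀)) := ⟨_, rfl⟩
  have hB1 : 1 ≤ B := by rw [hB]; exact le_max_left _ _
  have hBa : |(a₀ : ℝ)| ≤ B := by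
    rw [hB]; exact le_max_of_le_right (le_max_of_le_left (le_max_left _ _))
  have hBb : |(b₀ : ℝ)| ≤ B := by
    rw [hB]; exact le_max_of_le_right (le_max_of_le_left (le_max_right _ _))
  have hBP : (ht P₀ : ℝ) ≤ B := by
    rw [hB]; exact le_max_of_le_right (le_max_right _ _)
  refine ⟨κ, c * B ^ (-κ), hκ, by positivity, fun H a b P hab hP hPb hne hne' => ?_⟩
  by_contra hcon
  push Not at hcon
  have hH : 1 ≤ H := by
    have h1 : P.coeff P.natDegree ≠ 0 := leadingCoeff_ne_zero.2 hP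
    refine le_trans ?_ (hPb.2 P.natDegree)
    rw [← Int.cast_abs]
    exact_mod_cast Int.one_le_abs h1
  have hH0 : 0 < H := by linarith
  have hB0 : 0 < B := by linarith
  have g1 : B ≤ B * H := by nlinarith
  have g2 : H ≤ B * H := by nlinarith
  have hs := h Real.pi (abs_of_pos Real.pi_pos).le (B * H) a₀ b₀ a b P₀ P
    ⟨h₀, hBa.trans g1, hBb.trans g1⟩ ⟨hab.1, hab.2.1.trans g2, hab.2.2.trans g2⟩ hP₀ hP
    ⟨le_max_right _ _, fun i => (le_ht P₀ i).trans (hBP.trans g1)⟩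
    ⟨hPb.1.trans (le_max_left _ _), fun i => (hPb.2 i).trans g2⟩
    (by rw [h0, abs_zero]; positivity)
    (by
      rw [Real.mul_rpow hB0.le hH0.le, ← mul_assoc]
      exact hcon)
  rcases hs with ⟨e1, e2, -⟩ | ⟨e1, e2, -⟩
  · exact hne ⟨e1, e2⟩
  · exact hne' ⟨e1, e2⟩

/-- **Near algebraic values at `(e, t)` and of the forms `a t + b e`**, see the introduction. -/
theorem result :
    -- (1) one curve at every scale
    (∀ D : ℕ, ∃ κ : ℝ, 0 < κ ∧ ∀ T : ℝ, ∃ c : ℝ, 0 < c ∧ ∀ t : ℝ, |t| ≤ T → ∀ H : ℝ, 1 ≤ H →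
      ∃ Q : ℤ[X][Y], Irreducible Q ∧ (∀ n : ℤ, Q ≠ C (C n)) ∧
        ∀ (f : ℤ[X][Y]) (P : ℤ[X]), Bounded₂ D H f → Bounded D H P → aeval f P ≠ 0 →
          |aeval (value t f) P| ≤ c * H ^ (-κ) → Q ∣ aeval f P) ∧
    -- (2) one form at every scale, and the number of near algebraic values of all the forms
    (∀ D : ℕ, ∃ κ : ℝ, 0 < κ ∧
      (∀ T : ℝ, ∃ c : ℝ, 0 < c ∧ ∀ t : ℝ, |t| ≤ T → ∀ H : ℝ,
        ∀ (a b a' b' : ℤ) (P P' : ℤ[X]), Primitive H a b → Primitive H a' b' → P ≠ 0 → P' ≠ 0 →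
          Bounded D H P → Bounded D H P' →
          |aeval (a * t + b * Real.exp 1) P| ≤ c * H ^ (-κ) →
          |aeval (a' * t + b' * Real.exp 1) P'| ≤ c * H ^ (-κ) →
          (a' = a ∧ b' = b ∧ CommonFactor P P') ∨
            (a' = -a ∧ b' = -b ∧ CommonFactor (P.comp (-X)) P')) ∧
      ∀ t w ρ : ℝ, 1 < ρ → ρ < w / κ → ∃ C : ℝ, ∀ X : ℝ, 3 ≤ X → (Near t D w X).Finite ∧
        ((Near t D w X).ncard : ℝ) ≤ Real.log (Real.log X) / Real.log ρ + C) ∧
    -- (3) one form at every scale is near an algebraic number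
    (∀ D : ℕ, ∃ κ : ℝ, 0 < κ ∧ ∀ T : ℝ, ∃ c : ℝ, 0 < c ∧ ∀ t : ℝ, |t| ≤ T → ∀ H : ℝ,
      1 ≤ H → ∀ (a b a' b' : ℤ) (α α' : ℝ), Primitive H a b → Primitive H a' b' →
        Algebraic D H α → Algebraic D H α' →
        |a * t + b * Real.exp 1 - α| ≤ c * H ^ (-κ) →
        |a' * t + b' * Real.exp 1 - α'| ≤ c * H ^ (-κ) →
        (a' = a ∧ b' = b) ∨ (a' = -a ∧ b' = -b)) ∧
    -- (4) the numbers `π + e` and `π - e`
    (∀ D : ℕ, ∃ κ c : ℝ, 0 < κ ∧ 0 < c ∧ ∀ H : ℝ, 1 ≤ H → ∀ α β : ℝ,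
      Algebraic D H α → Algebraic D H β →
      c * H ^ (-κ) < max |Real.pi + Real.exp 1 - α| |Real.pi - Real.exp 1 - β|) ∧
    -- (5) if one primitive form is algebraic
    (∀ a₀ b₀ : ℤ, IsCoprime a₀ b₀ → IsAlgebraic ℚ (a₀ * Real.pi + b₀ * Real.exp 1) → ∀ D : ℕ,
      ∃ κ c : ℝ, 0 < κ ∧ 0 < c ∧ ∀ (H : ℝ) (a b : ℤ) (P : ℤ[X]), Primitive H a b → P ≠ 0 →
        Bounded D H P → ¬ (a = a₀ ∧ b = b₀) → ¬ (a = -a₀ ∧ b = -b₀) →
        c * H ^ (-κ) < |aeval (a * Real.pi + b * Real.exp 1) P|) := by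
  refine ⟨fun D => ?_, fun D => ?_, numbers, fun D => ?_, other⟩
  · obtain ⟨κ, hκ, h⟩ := curve _ measT_e D
    refine ⟨κ, hκ, fun T => ?_⟩
    obtain ⟨c, hc, h⟩ := h T
    refine ⟨c, hc, fun t ht H hH => ?_⟩
    obtain ⟨Q, hQ, hQc, hQd⟩ := h t (by rw [Complex.norm_real]; exact ht) H hH
    refine ⟨Q, hQ, hQc, fun f P hf hP h0 hs => hQd f P hf hP h0 ?_⟩
    rw [vl_aeval, value_eq, norm_aeval]
    exact hs
  · obtain ⟨κ, hκ, h⟩ := forms D
    obtain ⟨κ', hκ', h'⟩ := two_forms _ measT_e D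
    refine ⟨max κ κ', lt_max_of_lt_left hκ, ?_, ?_⟩
    · intro T
      obtain ⟨c, hc, h⟩ := h T
      refine ⟨c, hc, fun t ht H a b a' b' P P' hab hab' hP hP' hPb hPb' hs hs' => ?_⟩
      have hH : 1 ≤ H := by
        have h1 : P.coeff P.natDegree ≠ 0 := leadingCoeff_ne_zero.2 hP
        refine le_trans ?_ (hPb.2 P.natDegree)
        rw [← Int.cast_abs]
        exact_mod_cast Int.one_le_abs h1
      have h2 : c * H ^ (-(max κ κ')) ≤ c * H ^ (-κ) :=
        mul_le_mul_of_nonneg_left (Real.rpow_le_rpow_of_exponent_le hH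
          (by linarith [le_max_left κ κ'])) hc.le
      exact h t ht H a b a' b' P P' hab hab' hP hP' hPb hPb' (hs.trans h2) (hs'.trans h2)
    · intro t w ρ hρ hρw
      have hm : 0 < max κ κ' := lt_max_of_lt_left hκ
      have hw : 0 < w := by
        rw [lt_div_iff₀ hm] at hρw
        nlinarith
      obtain ⟨C, hC⟩ := count _ D κ' hκ' h' t w ρ hρ
        (hρw.trans_le (div_le_div_of_nonneg_left hw.le hκ' (le_max_right _ _)))
      refine ⟨C, fun Z hZ => ?_⟩
      have e : Near t D w Z = {p ∈ NearSet ((Real.exp 1 : ℝ) : ℂ) (t : ℂ) D w | hh p ≤ Z} := by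
        ext p
        obtain ⟨⟨a, b⟩, P⟩ := p
        unfold Near NearSet
        simp only [Set.mem_ofPred_eq]
        rw [coe_form, norm_aeval, hh_eq]
        tauto
      rw [e]
      exact hC Z hZ
  · obtain ⟨κ, hκ, h⟩ := numbers D
    obtain ⟨c, hc, h⟩ := h Real.pi
    refine ⟨κ, c, hκ, hc, fun H hH α β hα hβ => ?_⟩
    by_contra hcon
    push Not at hcon
    have h1 := (le_max_left _ _).trans hcon
    have h2 := (le_max_right _ _).trans hcon
    have h3 := h Real.pi (abs_of_pos Real.pi_pos).le H hH 1 1 1 (-1) α β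
      ⟨isCoprime_one_left, by simpa using hH, by simpa using hH⟩
      ⟨isCoprime_one_left, by simpa using hH, by simpa using hH⟩ hα hβ
      (by
        have e : ((1 : ℤ) : ℝ) * Real.pi + ((1 : ℤ) : ℝ) * Real.exp 1 = Real.pi + Real.exp 1 := by
          push_cast; ring
        rw [e]; exact h1)
      (by
        have e : ((1 : ℤ) : ℝ) * Real.pi + ((-1 : ℤ) : ℝ) * Real.exp 1 = Real.pi - Real.exp 1 := by
          push_cast; ring
        rw [e]; exact h2)
    omega

end Pool.Agent.Results.MP_363d4d_nt.NearAlgebraicForms
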