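import Pool.Agent.N538.MR.Pair2
import Pool.Agent.N538.MR.MeasE

set_option autoImplicit false

/-!
# Is one of `π + e`, `π - e` near a rational number at every scale?

Let `ξ` be a real number, for instance `ξ = π`. By Dirichlet's theorem there is, for every `X ≥ 1`,
an integer `1 ≤ q ≤ X` with `q (ξ + e)` within `X ^ (-1)` of an integer, and the same holds for
`ξ - e`. We show: if `w₁, w₂ > 1` and `w₁ (w₂ - 2) > 1` or `w₂ (w₁ - 2) > 1` (for instance
`w₁ = w₂ > 1 + √2`), and if at every large scale `X` one of the two numbers is near a rational number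
in the sense that some `1 ≤ q ≤ X` has `q (ξ + e)` within `X ^ (-w₁)` or `q (ξ - e)` within
`X ^ (-w₂)` of an integer, then `ξ + e` or `ξ - e` is rational. For `w₁ = w₂ = w > 1 + √2` we prove
the corresponding statement on an interval of scales, uniformly in `ξ`: near relations at all scales
of `[Y, Z]` come from one denominator `q ≤ Y ^ κ`.
-/

namespace Pool.Agent.Results.MP_363d4d_nt.OneOfTwoNearRational

/-- some integer `1 ≤ q ≤ X` has `q θ` within `δ` of an integer -/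
def NearRational (θ X δ : ℝ) : Prop := ∃ q p : ℤ, 1 ≤ q ∧ (q : ℝ) ≤ X ∧ |q * θ - p| ≤ δ

open Pool.Agent.N538.MR

lemma near_iff (θ X δ : ℝ) : NearQ θ X δ ↔ NearRational θ X δ := Iff.rfl

lemma near_of_rational {θ : ℝ} (h : ¬ Irrational θ) :
    ∃ Y : ℝ, ∀ X w : ℝ, Y ≤ X → NearRational θ X (X ^ (-w)) := by
  rw [Irrational, not_not] at h
  obtain ⟨r, rfl⟩ := h
  refine ⟨r.den, fun X w hX => ⟨r.den, r.num, ?_, ?_, ?_⟩⟩
  · have := r.pos
    omega
  · rw [Int.cast_natCast]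
    exact hX
  · have e : (((r.den : ℤ) : ℝ)) * (r : ℝ) - (r.num : ℝ) = 0 := by
      have := Rat.den_mul_eq_num r
      have h2 : ((r.den : ℚ) : ℝ) * (r : ℝ) = ((r.num : ℚ) : ℝ) := by
        exact_mod_cast congrArg (fun z : ℚ => (z : ℝ)) this
      push_cast at h2 ⊢
      linarith
    rw [e, abs_zero]
    have : (0 : ℝ) ≤ X := (Nat.cast_nonneg _).trans hX
    positivity

/-- (1) Let `w > 1 + √2`, `κ ≥ 1` and `κ (w - 2) > 1`. For all `Y ≥ Y₀(w, κ)`, all `Z ≥ Y` and all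
real `ξ`: if for every `X` with `Y ≤ X ≤ Z` one of the numbers `ξ + e`, `ξ - e` has a denominator
`1 ≤ q ≤ X` with an error `≤ X ^ (-w)`, then one of them has a denominator `1 ≤ q ≤ Y ^ κ` with an
error `≤ Z ^ (-w)`. (2) Let `w₁, w₂ > 1` and `w₁ (w₂ - 2) > 1` or `w₂ (w₁ - 2) > 1`. For every real
`ξ`, for instance `ξ = π`: one of the numbers `ξ + e`, `ξ - e` is rational if and only if at all large
scales `X` some `1 ≤ q ≤ X` has `q (ξ + e)` within `X ^ (-w₁)` of an integer or `q (ξ - e)` within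
`X ^ (-w₂)` of an integer. -/
theorem result :
    (∀ w κ : ℝ, 1 + Real.sqrt 2 < w → 1 ≤ κ → 1 < κ * (w - 2) →
      ∃ Y₀ : ℝ, 1 ≤ Y₀ ∧ ∀ ξ Y Z : ℝ, Y₀ ≤ Y → Y ≤ Z →
        (∀ X : ℝ, Y ≤ X → X ≤ Z → NearRational (ξ + Real.exp 1) X (X ^ (-w)) ∨
          NearRational (ξ - Real.exp 1) X (X ^ (-w))) →
        NearRational (ξ + Real.exp 1) (Y ^ κ) (Z ^ (-w)) ∨
          NearRational (ξ - Real.exp 1) (Y ^ κ) (Z ^ (-w))) ∧
    (∀ w₁ w₂ : ℝ, 1 < w₁ → 1 < w₂ → 1 < w₁ * (w₂ - 2) ∨ 1 < w₂ * (w₁ - 2) → ∀ ξ : ℝ,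
      ((¬ Irrational (ξ + Real.exp 1) ∨ ¬ Irrational (ξ - Real.exp 1)) ↔
        ∃ Y : ℝ, ∀ X : ℝ, Y ≤ X → NearRational (ξ + Real.exp 1) X (X ^ (-w₁)) ∨
          NearRational (ξ - Real.exp 1) X (X ^ (-w₂)))) := by
  refine ⟨?_, ?_⟩
  · intro w κ hw hκ1 hκ
    have hs0 : 0 ≤ Real.sqrt 2 := Real.sqrt_nonneg 2
    have hs2 : Real.sqrt 2 * Real.sqrt 2 = 2 := Real.mul_self_sqrt (by norm_num)
    have hs1 : 1 ≤ Real.sqrt 2 := Real.one_le_sqrt.2 (by norm_num)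
    obtain ⟨ε, hε, h⟩ := pairLoc (κ := 1) (w := w) (κ' := κ) one_pos (by linarith)
      (by nlinarith) hκ1 (by linarith)
    obtain ⟨c, hc, hsep⟩ := sepSum lin_e ε hε
    obtain ⟨Y0, hY0, h1⟩ := h c hc
    exact ⟨Y0, hY0, fun ξ Y Z hY hYZ hU => h1 _ _ (hsep ξ) Y Z hY hYZ hU⟩
  · intro w₁ w₂ hw₁ hw₂ hw ξ
    constructor
    · rintro (h | h)
      · obtain ⟨Y, hY⟩ := near_of_rational h
        exact ⟨Y, fun X hX => Or.inl (hY X _ hX)⟩
      · obtain ⟨Y, hY⟩ := near_of_rational h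
        exact ⟨Y, fun X hX => Or.inr (hY X _ hX)⟩
    · rintro ⟨Y, hY⟩
      by_contra hcon
      push Not at hcon
      obtain ⟨h1, h2⟩ := hcon
      have hs : ∀ ε : ℝ, 0 < ε → ∃ c : ℝ, 0 < c ∧
          Sep (ξ + Real.exp 1) (ξ - Real.exp 1) 1 ε c := by
        intro ε hε
        obtain ⟨c, hc, hsep⟩ := sepSum lin_e ε hε
        exact ⟨c, hc, hsep ξ⟩
      rcases hw with hw | hw
      · obtain ⟨X, hX, g1, g2⟩ := pairAsym one_pos hw₁ hw₂ (by linarith) hs h1 h2 Y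
        rcases hY X hX with h3 | h3
        · exact g1 h3
        · exact g2 h3
      · have hs' : ∀ ε : ℝ, 0 < ε → ∃ c : ℝ, 0 < c ∧
            Sep (ξ - Real.exp 1) (ξ + Real.exp 1) 1 ε c := by
          intro ε hε
          obtain ⟨c, hc, hsep⟩ := hs ε hε
          exact ⟨c, hc, hsep.symm⟩
        obtain ⟨X, hX, g1, g2⟩ := pairAsym one_pos hw₂ hw₁ (by linarith) hs' h2 h1 Y
        rcases hY X hX with h3 | h3
        · exact g2 h3
        · exact g1 h3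

end Pool.Agent.Results.MP_363d4d_nt.OneOfTwoNearRational
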