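import Pool.Agent.N493.NRMany

set_option autoImplicit false

/-!
# The numbers `π + r e`, `r` rational

If `π + e` is rational then all the other numbers `π + r e`, `r` rational, are irrational. We show
more generally, for an arbitrary real `ξ` instead of `π` and with constants independent of `ξ`, that
very few of the numbers `ξ + r e` are well approximable: for `τ > 3` and `1 < θ < (τ - 1) / 2` there
are at most `log log Z / log θ + C` rational numbers `r` such that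
`|m (ξ + r e) - a| ≤ max(m, |m r|) ^ (-τ)` for some integers `a` and `m ≥ 1` with `m r` an integer and
`max(m, |m r|) ≤ Z`. The exponent three is the exact threshold: for every `τ < 3` there are
arbitrarily large `Z` and real `ξ` with at least `Z ^ (1 - τ / 3) / 4` such rational numbers `r`.
-/

namespace Pool.Agent.Results.MP_363d4d_nt.RationalMultiplesOfE

/-- The rational numbers `r` such that there are integers `m ≥ 1`, `a` and `b = m r` with
`max(m, |b|) ≤ Z` and `|m (ξ + r e) - a| ≤ max(m, |b|) ^ (-τ)`. -/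
def Exceptional (ξ τ Z : ℝ) : Set ℚ :=
  {r | ∃ (m : ℕ) (a b : ℤ), 1 ≤ m ∧ (m : ℚ) * r = b ∧ max (m : ℝ) |(b : ℝ)| ≤ Z ∧
    |(m : ℝ) * (ξ + r * Real.exp 1) - a| ≤ (max (m : ℝ) |(b : ℝ)|) ^ (-τ)}

theorem finite (ξ τ Z : ℝ) : (Exceptional ξ τ Z).Finite := by
  obtain ⟨N, hN⟩ := exists_nat_ge Z
  apply ((Set.finite_Icc (0 : ℕ) N).prod (Set.finite_Icc (-(N : ℤ)) N)).image
    (fun z : ℕ × ℤ => (z.2 : ℚ) / z.1) |>.subset
  rintro r ⟨m, a, b, hm, hb, hZ, -⟩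
  have h1 : (m : ℝ) ≤ N := ((le_max_left _ _).trans hZ).trans hN
  have h2 : |(b : ℝ)| ≤ N := ((le_max_right _ _).trans hZ).trans hN
  have h3 : |b| ≤ N := by exact_mod_cast h2
  have h4 := abs_le.1 h3
  refine ⟨(m, b), ⟨⟨by omega, by exact_mod_cast h1⟩, ⟨h4.1, h4.2⟩⟩, ?_⟩
  have hm0 : (m : ℚ) ≠ 0 := by exact_mod_cast (by omega : m ≠ 0)
  simp only
  rw [← hb]
  field_simp

open Pool.Agent.N493.NR in
/-- (1) upper bound -/
theorem upper (τ θ : ℝ) (hθ1 : 1 < θ) (hθ : θ < (τ - 1) / 2) : ∃ C : ℝ, ∀ ξ Z : ℝ, 3 ≤ Z →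
    ((Exceptional ξ τ Z).ncard : ℝ) ≤ Real.log (Real.log Z) / Real.log θ + C := by
  classical
  obtain ⟨C, hC⟩ := count (Real.exp 1)
    (fun ε hε => Pool.Agent.H43R2.Cplx.EMeas.measure ε hε) τ θ hθ1 hθ
  refine ⟨C, fun ξ Z hZ => ?_⟩
  have hex : ∀ r : ℚ, ∃ v : ℤ × ℤ × ℤ, r ∈ Exceptional ξ τ Z →
      0 < v.2.2 ∧ (v.2.2 : ℚ) * r = v.2.1 ∧ 1 ≤ ht v ∧ (ht v : ℝ) ≤ Z ∧
        |L (Real.exp 1) ξ v| ≤ (ht v : ℝ) ^ (-τ) := by
    intro r
    by_cases hr : r ∈ Exceptional ξ τ Z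
    · obtain ⟨m, a, b, hm, hb, hZ', hv⟩ := hr
      have hht : (ht (-a, b, (m : ℤ)) : ℝ) = max (m : ℝ) |(b : ℝ)| := by
        unfold ht
        simp only [Int.natAbs_natCast]
        rw [Nat.cast_max, max_comm, Nat.cast_natAbs, Int.cast_abs]
      refine ⟨(-a, b, (m : ℤ)), fun _ => ⟨by simp only; omega, by simpa using hb, ?_, ?_, ?_⟩⟩
      · unfold ht
        simp only [Int.natAbs_natCast]
        exact hm.trans (le_max_right _ _)
      · rw [hht]; exact hZ'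
      · rw [hht]
        have e1 : L (Real.exp 1) ξ (-a, b, (m : ℤ)) = (m : ℝ) * (ξ + r * Real.exp 1) - a := by
          have hbR : (m : ℝ) * r = b := by exact_mod_cast congrArg (fun z : ℚ => (z : ℝ)) hb
          unfold L
          push_cast
          linear_combination (-Real.exp 1) * hbR
        rw [e1]; exact hv
    · exact ⟨0, fun h => absurd h hr⟩
  choose V hV using hex
  obtain ⟨F, hF⟩ := (finite ξ τ Z).exists_finset_coe
  rw [← hF, Set.ncard_coe_finset]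
  have hmem : ∀ r ∈ F, r ∈ Exceptional ξ τ Z := fun r hr => by rw [← hF]; exact_mod_cast hr
  have hne : ∀ r ∈ F, ∀ s ∈ F, Par (V r) (V s) → r = s := by
    intro r hr s hs hp
    obtain ⟨h1, h2, -⟩ := hV r (hmem r hr)
    obtain ⟨h3, h4, -⟩ := hV s (hmem s hs)
    have h5 : ((V r).2.1 : ℚ) * (V s).2.2 = (V s).2.1 * (V r).2.2 := by exact_mod_cast hp.2.2
    have h6 : (((V r).2.2 : ℤ) : ℚ) ≠ 0 := by exact_mod_cast h1.ne'
    have h7 : (((V s).2.2 : ℤ) : ℚ) ≠ 0 := by exact_mod_cast h3.ne'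
    have h8 : (((V r).2.2 : ℤ) : ℚ) * (V s).2.2 * (r - s) = 0 := by
      rw [← h2, ← h4] at h5
      linear_combination h5
    rcases mul_eq_zero.1 h8 with h | h
    · exact absurd h (mul_ne_zero h6 h7)
    · linarith
  have hcard : (F.image V).card = F.card := by
    apply Finset.card_image_of_injOn
    intro r hr s hs hrs
    exact hne r (by exact_mod_cast hr) s (by exact_mod_cast hs) (by rw [hrs]; exact ⟨rfl, rfl, rfl⟩)
  rw [← hcard]
  apply hC ξ Z hZ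
  · intro u hu v hv huv hp
    rw [Finset.mem_coe, Finset.mem_image] at hu hv
    obtain ⟨r, hr, rfl⟩ := hu
    obtain ⟨s, hs, rfl⟩ := hv
    exact huv (by rw [hne r hr s hs hp])
  · intro v hv
    rw [Finset.mem_image] at hv
    obtain ⟨r, hr, rfl⟩ := hv
    exact (hV r (hmem r hr)).2.2

open Pool.Agent.N493.NR in
/-- (2) lower bound -/
theorem lower (τ : ℝ) (hτ0 : 0 < τ) (hτ : τ < 3) (Z₀ : ℝ) : ∃ Z ξ : ℝ, Z₀ ≤ Z ∧
    Z ^ (1 - τ / 3) / 4 ≤ ((Exceptional ξ τ Z).ncard : ℝ) := by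
  classical
  obtain ⟨Z, hZ0, -, ξ, F, hF, hF2, hcard⟩ := manyR (Real.exp 1)
    (fun ε hε => Pool.Agent.H43R2.Cplx.EMeas.measure ε hε) τ hτ0 hτ Z₀
  refine ⟨Z, ξ, hZ0, hcard.trans ?_⟩
  have hinj : Set.InjOn (fun v : ℤ × ℤ × ℤ => (v.2.1 : ℚ) / v.2.2) F := by
    intro u hu v hv huv
    by_contra hne
    apply hF hu hv hne
    simp only at huv
    have h1 := (hF2 u (by exact_mod_cast hu)).1
    have h2 := (hF2 v (by exact_mod_cast hv)).1
    have h3 : ((u.2.2 : ℤ) : ℚ) ≠ 0 := by exact_mod_cast h1.ne'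
    have h4 : ((v.2.2 : ℤ) : ℚ) ≠ 0 := by exact_mod_cast h2.ne'
    rw [div_eq_div_iff h3 h4] at huv
    exact_mod_cast huv
  have hsub : ((F.image fun v : ℤ × ℤ × ℤ => (v.2.1 : ℚ) / v.2.2 : Finset ℚ) : Set ℚ) ⊆
      Exceptional ξ τ Z := by
    intro r hr
    rw [Finset.mem_coe, Finset.mem_image] at hr
    obtain ⟨v, hv, rfl⟩ := hr
    obtain ⟨h1, h2, h3⟩ := hF2 v hv
    have h4 : ((v.2.2 : ℤ) : ℚ) ≠ 0 := by exact_mod_cast h1.ne'
    have h5 : ((v.2.2.toNat : ℕ) : ℤ) = v.2.2 := Int.toNat_of_nonneg h1.le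
    have h5Q : ((v.2.2.toNat : ℕ) : ℚ) = v.2.2 := by exact_mod_cast h5
    have h5R : ((v.2.2.toNat : ℕ) : ℝ) = v.2.2 := by exact_mod_cast h5
    have hht : (ht v : ℝ) = max ((v.2.2.toNat : ℕ) : ℝ) |(v.2.1 : ℝ)| := by
      unfold ht
      rw [Nat.cast_max, max_comm, Nat.cast_natAbs, Nat.cast_natAbs, Int.cast_abs, Int.cast_abs, h5R,
        abs_of_pos (by exact_mod_cast h1 : (0 : ℝ) < v.2.2)]
    refine ⟨v.2.2.toNat, -v.1, v.2.1, by omega, ?_, ?_, ?_⟩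
    · rw [h5Q]; field_simp
    · rw [← hht]; exact h2
    · rw [← hht, h5R]
      have h6 : ((v.2.2 : ℤ) : ℝ) ≠ 0 := by exact_mod_cast h1.ne'
      have e1 : (v.2.2 : ℝ) * (ξ + (((v.2.1 : ℚ) / v.2.2 : ℚ) : ℝ) * Real.exp 1) - ((-v.1 : ℤ) : ℝ) =
          L (Real.exp 1) ξ v := by
        unfold L
        push_cast
        field_simp
        ring
      rw [e1]; exact h3
  have h1 := Set.ncard_le_ncard hsub (finite ξ τ Z)
  rw [Set.ncard_coe_finset, Finset.card_image_of_injOn hinj] at h1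
  exact_mod_cast h1

/-- Let `E(ξ, τ, Z)` be the set of the rational numbers `r` such that
`|m (ξ + r e) - a| ≤ max(m, |m r|) ^ (-τ)` for some integers `a` and `m ≥ 1` with `m r` an integer and
`max(m, |m r|) ≤ Z`. It is finite. (1) If `τ > 3` and `1 < θ < (τ - 1) / 2` then there is `C` such
that `E(ξ, τ, Z)` has at most `log log Z / log θ + C` elements, for all real `ξ` and all `Z ≥ 3`.
(2) If `0 < τ < 3` then there are arbitrarily large `Z` and real `ξ` such that `E(ξ, τ, Z)` has at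
least `Z ^ (1 - τ / 3) / 4` elements. -/
theorem result :
    (∀ ξ τ Z : ℝ, (Exceptional ξ τ Z).Finite) ∧
    (∀ τ θ : ℝ, 1 < θ → θ < (τ - 1) / 2 → ∃ C : ℝ, ∀ ξ Z : ℝ, 3 ≤ Z →
      ((Exceptional ξ τ Z).ncard : ℝ) ≤ Real.log (Real.log Z) / Real.log θ + C) ∧
    (∀ τ : ℝ, 0 < τ → τ < 3 → ∀ Z₀ : ℝ, ∃ Z ξ : ℝ, Z₀ ≤ Z ∧
      Z ^ (1 - τ / 3) / 4 ≤ ((Exceptional ξ τ Z).ncard : ℝ)) :=
  ⟨finite, upper, lower⟩

end Pool.Agent.Results.MP_363d4d_nt.RationalMultiplesOfE
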